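import Pool.Agent.Lib.MP_dd1a29_co.SimplexExample

/-!
# MP_dd1a29_co: steep height versus simplex height

`M(ζ, 6, 8) = 15` and `M(τ, 6, 8) = 14`.  So the worst-case numbers of steps of the steep rule and
of the simplex (Dantzig) rule over simple 6-polytopes with 8 facets differ, and the answer to Q1
is negative.  The definitions are in `Pool/Agent/Lib/MP_dd1a29_co/Defs.lean`.
-/

namespace Pool.Agent.Results.MP_dd1a29_co.SteepVersusSimplex

open Pool.Agent.Lib.MP_dd1a29_co

theorem result : steepMax 6 8 = 15 ∧ simplexMax 6 8 = 14 := by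
  refine ⟨le_antisymm ?_ ?_, le_antisymm ?_ ?_⟩
  · refine iSup_le fun φ => iSup_le fun hφ => iSup_le fun ℓ => iSup_le fun k => iSup_le fun x =>
      iSup_le fun hx => ?_
    have : k ≤ 15 := inc_le hφ hx.1 fun i hi => ⟨(hx.2 i hi).1, (hx.2 i hi).2.1⟩
    exact_mod_cast this
  · obtain ⟨x, hx⟩ := Data.exists_steep steepData_good 15 steepA steepB steepData_ok
    exact le_iSup_of_le steepData.y <| le_iSup_of_le (Data.simplePolytope steepData_good) <|
      le_iSup_of_le (Data.coordForm 5) <| le_iSup_of_le 15 <| le_iSup_of_le x <|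
      le_iSup_of_le hx le_rfl
  · refine iSup_le fun φ => iSup_le fun hφ => iSup_le fun ℓ => iSup_le fun k => iSup_le fun x =>
      iSup_le fun hx => ?_
    exact_mod_cast simplex_le hφ hx
  · obtain ⟨x, hx⟩ := Data.exists_simplex simplexData_good simplexC 14 simplexA simplexB
      simplexData_ok
    have hγ : ∀ i, (0 : ℝ) < 1 / (simplexC i : ℝ) := fun i => by
      have : (0 : ℝ) < simplexC i := by exact_mod_cast simplexData_ok.2.1 i
      positivity
    exact le_iSup_of_le (Data.fam simplexData simplexC) <|
      le_iSup_of_le ((Data.simplePolytope simplexData_good).smul hγ) <|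
      le_iSup_of_le (Data.coordForm 5) <| le_iSup_of_le 14 <| le_iSup_of_le x <|
      le_iSup_of_le hx le_rfl

end Pool.Agent.Results.MP_dd1a29_co.SteepVersusSimplex
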